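import Pool.Agent.Helper33.HU.FIN
import Pool.Agent.Helper19.SQ.CDefs

/-!
# The upper bound for the ring of diagonal coinvariants (helper33)
-/

set_option autoImplicit false

namespace Pool.Agent.Helper33.HU

open Finset MvPolynomial Pool.Agent.Helper19.SQ

/-- the power sums of positive degree are in the ideal of the invariants. -/
theorem ps_mem_dIdeal (n r s : ℕ) (h : 1 ≤ r + s) : ps n r s ∈ dIdeal n := by
  refine Ideal.subset_span ⟨?_, ?_⟩
  · intro σ
    unfold ps rn
    rw [map_sum]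
    simp only [map_mul, map_pow, rename_X, Sum.map_inl, Sum.map_inr]
    exact Equiv.sum_comp σ
      (fun k => (X (Sum.inl k) : Pn n) ^ r * X (Sum.inr k) ^ s)
  · unfold ps
    rw [map_sum]
    refine sum_eq_zero fun k _ => ?_
    rw [map_mul, map_pow, map_pow, constantCoeff_X, constantCoeff_X]
    rcases Nat.eq_zero_or_pos r with hr | hr
    · subst hr
      rw [zero_pow (by omega : s ≠ 0), mul_zero]
    · rw [zero_pow (by omega : r ≠ 0), zero_mul]

theorem inv_DR (n : ℕ) :
    Inv (fun k : Fin n => (Ideal.Quotient.mk (dIdeal n) (X (Sum.inl k)) : DR n))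
      (fun k : Fin n => (Ideal.Quotient.mk (dIdeal n) (X (Sum.inr k)) : DR n)) := by
  intro r s h
  have h1 := Ideal.Quotient.eq_zero_iff_mem.2 (ps_mem_dIdeal n r s h)
  rw [← h1]
  unfold ps
  rw [map_sum]
  refine sum_congr rfl fun k _ => ?_
  rw [map_mul, map_pow, map_pow]

theorem gen_DR (n : ℕ) : Algebra.adjoin ℂ
    (Set.range (fun k : Fin n => (Ideal.Quotient.mk (dIdeal n) (X (Sum.inl k)) : DR n)) ∪
      Set.range (fun k : Fin n => (Ideal.Quotient.mk (dIdeal n) (X (Sum.inr k)) : DR n))) = ⊤ := by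
  have h1 : Set.range (fun k : Fin n => (Ideal.Quotient.mk (dIdeal n) (X (Sum.inl k)) : DR n)) ∪
      Set.range (fun k : Fin n => (Ideal.Quotient.mk (dIdeal n) (X (Sum.inr k)) : DR n)) =
      (Ideal.Quotient.mkₐ ℂ (dIdeal n)) '' (Set.range (X : Fin n ⊕ Fin n → Pn n)) := by
    rw [← Set.range_comp]
    ext u
    constructor
    · rintro (⟨k, rfl⟩ | ⟨k, rfl⟩)
      · exact ⟨Sum.inl k, rfl⟩
      · exact ⟨Sum.inr k, rfl⟩
    · rintro ⟨k | k, rfl⟩
      · exact Or.inl ⟨k, rfl⟩
      · exact Or.inr ⟨k, rfl⟩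
  rw [h1, ← AlgHom.map_adjoin, MvPolynomial.adjoin_range_X, Algebra.map_top,
    AlgHom.range_eq_top]
  exact Ideal.Quotient.mkₐ_surjective ℂ (dIdeal n)

/-- The upper half of the theorem of Haiman, from the goal `G_FIN`. -/
theorem finrank_DR_le_of (h : G_FIN) (n : ℕ) :
    Module.Finite ℂ (DR n) ∧ Module.finrank ℂ (DR n) ≤ (n + 1) ^ (n - 1) :=
  h n (DR n) _ _ (inv_DR n) (gen_DR n)

end Pool.Agent.Helper33.HU
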