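import Pool.Agent.Helper33.HU.Goals

/-!
# The upper bound for diagonal coinvariants: assembly (helper33)
-/

set_option autoImplicit false

namespace Pool.Agent.Helper33.HU

open Finset

theorem pos_injective {n : ℕ} (a : Fin n → ℕ) : Function.Injective (pos a) := by
  intro i j h
  unfold pos at h
  have hn : 0 < (n : ℤ) := by exact_mod_cast (Nat.pos_of_ne_zero (fun h0 => by subst h0; exact i.elim0))
  have hi : (i : ℕ) < n := i.2
  have hj : (j : ℕ) < n := j.2
  have h1 : (((i : ℕ) : ℤ) - ((j : ℕ) : ℤ)) = (n : ℤ) * ((a i : ℤ) - (a j : ℤ)) := by linarith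
  have h2 : ((a i : ℤ) - (a j : ℤ)) = 0 := by
    by_contra hne
    rcases lt_or_gt_of_ne hne with hlt | hgt
    · have : (a i : ℤ) - a j ≤ -1 := by linarith
      have : (n : ℤ) * ((a i : ℤ) - (a j : ℤ)) ≤ (n : ℤ) * (-1) :=
        mul_le_mul_of_nonneg_left this hn.le
      have hi' : (0 : ℤ) ≤ ((i : ℕ) : ℤ) := by positivity
      have hj' : ((j : ℕ) : ℤ) < n := by exact_mod_cast hj
      linarith
    · have : 1 ≤ (a i : ℤ) - a j := by linarith
      have : (n : ℤ) * 1 ≤ (n : ℤ) * ((a i : ℤ) - (a j : ℤ)) :=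
        mul_le_mul_of_nonneg_left this hn.le
      have hi' : ((i : ℕ) : ℤ) < n := by exact_mod_cast hi
      have hj' : (0 : ℤ) ≤ ((j : ℕ) : ℤ) := by positivity
      linarith
  rw [h2, mul_zero] at h1
  have h3 : (i : ℕ) = (j : ℕ) := by
    have : ((i : ℕ) : ℤ) = ((j : ℕ) : ℤ) := by linarith
    exact_mod_cast this
  exact Fin.ext h3

theorem pos_nonneg_iff {n : ℕ} (a : Fin n → ℕ) (v : Fin n) : 0 ≤ pos a v ↔ a v = 0 := by
  unfold pos
  have hv : ((v : ℕ) : ℤ) < n := by exact_mod_cast v.2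
  have hv0 : (0 : ℤ) ≤ ((v : ℕ) : ℤ) := by positivity
  constructor
  · intro h
    by_contra hne
    have h1 : (1 : ℤ) ≤ a v := by exact_mod_cast Nat.one_le_iff_ne_zero.2 hne
    have h2 : (n : ℤ) * 1 ≤ (n : ℤ) * (a v : ℤ) := mul_le_mul_of_nonneg_left h1 (by positivity)
    linarith
  · intro h
    rw [h]
    simp

theorem ym_zero {n : ℕ} {D : Type} [CommRing D] (y : Fin n → D) : ym y 0 = 1 := by
  simp [ym]

theorem ym_add {n : ℕ} {D : Type} [CommRing D] (y : Fin n → D) (a b : Fin n → ℕ) :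
    ym y (a + b) = ym y a * ym y b := by
  simp [ym, pow_add, prod_mul_distrib]

theorem ym_single {n : ℕ} {D : Type} [CommRing D] (y : Fin n → D) (k : Fin n) :
    ym y (Pi.single k 1) = y k := by
  unfold ym
  rw [prod_eq_single k]
  · simp
  · intro j _ hj
    simp [Pi.single_eq_of_ne hj]
  · intro h
    exact absurd (mem_univ k) h

theorem span_ym {n : ℕ} {D : Type} [CommRing D] [Algebra ℂ D] (x y : Fin n → D)
    (hgen : Algebra.adjoin ℂ (Set.range x ∪ Set.range y) = ⊤) :
    Submodule.span (Xalg x) (Set.range (ym y)) = ⊤ := by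
  rw [eq_top_iff]
  rintro d -
  have hd : d ∈ Algebra.adjoin ℂ (Set.range x ∪ Set.range y) := by rw [hgen]; trivial
  have hmul : ∀ u v : D, u ∈ Submodule.span (Xalg x) (Set.range (ym y)) →
      v ∈ Submodule.span (Xalg x) (Set.range (ym y)) →
      u * v ∈ Submodule.span (Xalg x) (Set.range (ym y)) := by
    intro u v hu hv
    have h := Submodule.mul_mem_mul hu hv
    rw [Submodule.span_mul_span] at h
    refine Submodule.span_le.2 ?_ h
    rintro _ ⟨_, ⟨a, rfl⟩, _, ⟨b, rfl⟩, rfl⟩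
    refine Submodule.subset_span ⟨a + b, ?_⟩
    exact ym_add y a b
  have hone : (1 : D) ∈ Submodule.span (Xalg x) (Set.range (ym y)) :=
    Submodule.subset_span ⟨0, ym_zero y⟩
  have hX : ∀ u ∈ Xalg x, u ∈ Submodule.span (Xalg x) (Set.range (ym y)) := by
    intro u hu
    have h := Submodule.smul_mem (Submodule.span (Xalg x) (Set.range (ym y)))
      (⟨u, hu⟩ : Xalg x) hone
    have h2 : (⟨u, hu⟩ : Xalg x) • (1 : D) = u := by
      rw [Subalgebra.smul_def, smul_eq_mul, mul_one]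
    rwa [h2] at h
  induction hd using Algebra.adjoin_induction with
  | mem u hu =>
    rcases hu with ⟨k, rfl⟩ | ⟨k, rfl⟩
    · exact hX _ (Algebra.subset_adjoin ⟨k, rfl⟩)
    · exact Submodule.subset_span ⟨Pi.single k 1, ym_single y k⟩
  | algebraMap r => exact hX _ (Subalgebra.algebraMap_mem _ r)
  | add u v _ _ hu hv => exact Submodule.add_mem _ hu hv
  | mul u v _ _ hu hv => exact hmul u v hu hv

/-- the annihilator ideal of `y^a` modulo the lower part. -/
noncomputable def Jid {n : ℕ} {D : Type} [CommRing D] [Algebra ℂ D] (x y : Fin n → D)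
    (a : Fin n → ℕ) : Ideal (Xalg x) :=
  Submodule.comap (LinearMap.toSpanSingleton (Xalg x) D (ym y a)) (low x y (Ph a))

theorem mem_Jid {n : ℕ} {D : Type} [CommRing D] [Algebra ℂ D] (x y : Fin n → D)
    (a : Fin n → ℕ) (f : Xalg x) : f ∈ Jid x y a ↔ (f : D) * ym y a ∈ low x y (Ph a) := by
  unfold Jid
  rw [Submodule.mem_comap, LinearMap.toSpanSingleton_apply, Subalgebra.smul_def, smul_eq_mul]

theorem dim_quot (hML : G_ML) (hDIM : G_DIM) {n : ℕ} {D : Type} [CommRing D] [Algebra ℂ D]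
    (x y : Fin n → D) (hI : Inv x y) (a : Fin n → ℕ) :
    Module.Finite ℂ (Xalg x ⧸ Jid x y a) ∧
      Module.finrank ℂ (Xalg x ⧸ Jid x y a) ≤ ∏ v, ww a v := by
  classical
  set X : Fin n → Xalg x := fun i => ⟨x i, Algebra.subset_adjoin ⟨i, rfl⟩⟩ with hX
  have h := hDIM (Fin n) univ (pos a) (n : ℤ) (fun v => if a v = 0 then 1 else 0) (fun _ => 1)
    (Xalg x ⧸ Jid x y a) (fun i => Ideal.Quotient.mk (Jid x y a) (X i))
    ((pos_injective a).injOn) ?_ ?_ ?_ ?_ ?_
  · exact h
  · intro v _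
    by_cases hv : a v = 0 <;> simp [hv]
  · intro u _ v _ huv
    by_cases hu : a u = 0
    · have h1 : 0 ≤ pos a v := le_trans ((pos_nonneg_iff a u).2 hu) huv
      have h2 : a v = 0 := (pos_nonneg_iff a v).1 h1
      simp [hu, h2]
    · simp [hu]
  · intro v _
    exact le_refl 1
  · have h1 : Algebra.adjoin ℂ (Set.range X) = ⊤ := by
      have h0 := Algebra.adjoin_adjoin_coe_preimage (R := ℂ) (s := Set.range x)
      rw [← h0]
      congr 1
      ext u
      constructor
      · rintro ⟨i, rfl⟩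
        exact ⟨i, rfl⟩
      · rintro ⟨i, hi⟩
        exact ⟨i, Subtype.ext hi⟩
    have h2 : ((fun i => Ideal.Quotient.mk (Jid x y a) (X i)) ''
        ((univ : Finset (Fin n)) : Set (Fin n))) =
        (Ideal.Quotient.mkₐ ℂ (Jid x y a)) '' (Set.range X) := by
      rw [coe_univ, Set.image_univ, ← Set.range_comp]
      rfl
    rw [h2, ← AlgHom.map_adjoin, h1, Algebra.map_top, AlgHom.range_eq_top]
    exact Ideal.Quotient.mkₐ_surjective ℂ (Jid x y a)
  · intro v _
    have hFX : FF x a v ∈ Xalg x := by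
      unfold FF
      refine Subalgebra.sum_mem _ fun i _ => Subalgebra.mul_mem _ ?_
        (Subalgebra.prod_mem _ fun k _ => Subalgebra.sub_mem _ (Algebra.subset_adjoin ⟨i, rfl⟩)
          (Algebra.subset_adjoin ⟨k, rfl⟩))
      by_cases hv : a v = 0
      · rw [if_pos hv]
        exact Algebra.subset_adjoin ⟨i, rfl⟩
      · rw [if_neg hv]
        exact Subalgebra.one_mem _
    have hmem : (⟨FF x a v, hFX⟩ : Xalg x) ∈ Jid x y a := by
      rw [mem_Jid]
      exact hML n D x y hI a v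
    have h0 := Ideal.Quotient.eq_zero_iff_mem.2 hmem
    have h3 : (⟨FF x a v, hFX⟩ : Xalg x) = ∑ i ∈ SS a v,
        ((1 : ℕ) : Xalg x) * (X i ^ (if a v = 0 then 1 else 0) * ∏ k ∈ TT a v, (X i - X k)) := by
      apply Subtype.ext
      push_cast
      unfold FF
      refine sum_congr rfl fun i _ => ?_
      by_cases hv : a v = 0
      · simp [hv, hX]
      · simp [hv, hX]
    rw [h3, map_sum] at h0
    rw [← h0]
    unfold SS TT
    refine sum_congr rfl fun i _ => ?_
    rw [map_mul, map_mul, map_natCast, map_pow, map_prod]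
    simp only [map_sub]

theorem support_finite (hTRE : G_TRE) (n : ℕ) : {a : Fin n → ℕ | ∏ v, ww a v ≠ 0}.Finite := by
  by_contra hinf
  obtain ⟨t, ht, hcard⟩ := Set.Infinite.exists_subset_card_eq hinf
    (Nat.card {f : Fin n → Option (Fin n) // Acyc f} + 1)
  have h1 := hTRE n t
  have h2 : t.card ≤ ∑ a ∈ t, ∏ v, ww a v := by
    rw [card_eq_sum_ones]
    exact sum_le_sum fun a ha => Nat.one_le_iff_ne_zero.2 (ht ha)
  omega

theorem gFIN (hML : G_ML) (hDIM : G_DIM) (hLIN : G_LIN) (hTRE : G_TRE) (hCAY : G_CAY) :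
    G_FIN := by
  intro n D _ _ x y hI hgen
  have hs := support_finite hTRE n
  have h := hLIN (Xalg x) D (Fin n → ℕ) (ym y) Ph (Jid x y) (fun a => ∏ v, ww a v)
    hs.toFinset (span_ym x y hgen) ?_ (fun a => dim_quot hML hDIM x y hI a) ?_
  · exact ⟨h.1, le_trans h.2 (le_trans (hTRE n _) (hCAY n))⟩
  · intro a f hf
    have h1 := (mem_Jid x y a f).1 hf
    rw [Subalgebra.smul_def, smul_eq_mul]
    exact h1
  · intro a ha
    rw [Set.Finite.mem_toFinset] at ha
    simpa using ha

end Pool.Agent.Helper33.HU
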