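import Mathlib

/-!
# The upper bound for diagonal coinvariants: definitions (helper33)

For `a : Fin n → ℕ` the position of `v : Fin n` is `pos a v = v - n * a v`; the positions are
pairwise distinct, because `pos a v` is congruent to `v` modulo `n`.

`SS a v` = all `i` with position at most that of `v`, `TT a v` = the window above `v`
(positions strictly between `pos a v` and `pos a v + n`), `ww a v` = number of elements of the
window, plus one if `a v = 0` (the root), `Ph a` = sum of the squares of the positions.
-/

set_option autoImplicit false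

namespace Pool.Agent.Helper33.HU

open Finset

noncomputable section

/-- the position of `v` for the exponent vector `a`. -/
def pos {n : ℕ} (a : Fin n → ℕ) (v : Fin n) : ℤ := ((v : ℕ) : ℤ) - (n : ℤ) * (a v : ℤ)

/-- the sum of the squares of the positions. -/
def Ph {n : ℕ} (a : Fin n → ℕ) : ℕ := ∑ v, (pos a v).natAbs ^ 2

/-- all indices with position at most the position of `v`. -/
def SS {n : ℕ} (a : Fin n → ℕ) (v : Fin n) : Finset (Fin n) :=
  univ.filter fun i => pos a i ≤ pos a v

/-- the window above `v`. -/
def TT {n : ℕ} (a : Fin n → ℕ) (v : Fin n) : Finset (Fin n) :=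
  univ.filter fun k => pos a v < pos a k ∧ pos a k < pos a v + n

/-- the schedule number of `v`. -/
def ww {n : ℕ} (a : Fin n → ℕ) (v : Fin n) : ℕ := (TT a v).card + if a v = 0 then 1 else 0

/-- the polarized power sums of `x, y` vanish. -/
def Inv {n : ℕ} {D : Type} [CommRing D] (x y : Fin n → D) : Prop :=
  ∀ r s : ℕ, 1 ≤ r + s → ∑ k, x k ^ r * y k ^ s = 0

/-- the monomial `y^a`. -/
def ym {n : ℕ} {D : Type} [CommRing D] (y : Fin n → D) (a : Fin n → ℕ) : D := ∏ k, y k ^ a k

/-- the form `F_v` of degree `ww a v`. -/
def FF {n : ℕ} {D : Type} [CommRing D] (x : Fin n → D) (a : Fin n → ℕ) (v : Fin n) : D :=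
  ∑ i ∈ SS a v, (if a v = 0 then x i else 1) * ∏ k ∈ TT a v, (x i - x k)

/-- `f` (a parent function, `none` = the root) has no cycles: there is a height function. -/
def Acyc {n : ℕ} (f : Fin n → Option (Fin n)) : Prop :=
  ∃ d : Fin n → ℕ, ∀ v u, f v = some u → d u < d v

/-- the subalgebra generated by the `x_k`. -/
abbrev Xalg {n : ℕ} {D : Type} [CommRing D] [Algebra ℂ D] (x : Fin n → D) : Subalgebra ℂ D :=
  Algebra.adjoin ℂ (Set.range x)

/-- the span over the `x`-algebra of the monomials `y^b` with `Ph b < t`. -/
def low {n : ℕ} {D : Type} [CommRing D] [Algebra ℂ D] (x y : Fin n → D) (t : ℕ) :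
    Submodule (Xalg x) D :=
  Submodule.span (Xalg x) {m | ∃ b : Fin n → ℕ, Ph b < t ∧ m = ym y b}

end

end Pool.Agent.Helper33.HU
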