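import Pool.Agent.Helper33.HU.Defs

/-!
# The upper bound for diagonal coinvariants: goals (helper33)

Overview (`/team-store/haiman_upper_helper33.txt`).  Let `D` be a commutative `ℂ`-algebra
generated by `x_k, y_k` (`k : Fin n`) in which all polarized power sums vanish.  Then
`dim D ≤ (n+1)^(n-1)`.

* `G_PS`, `G_EE`: the basic relations.
* `G_PHI`: the exponents which occur besides `a` are lower for `Ph`.
* `G_ML`: `FF x a v * y^a` is in the span over the `x`-algebra of the `y^b` with `Ph b < Ph a`.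
* `G_DIM`: a commutative algebra generated by `z_i` with the relations `F_v = 0` has dimension at
  most the product of the schedule numbers.
* `G_LIN`: linear algebra of a filtration by cyclic modules.
* `G_TRE`: the schedule numbers count trees.  `G_CAY`: Cayley's formula.
* `G_FIN`: the theorem.
-/

set_option autoImplicit false

namespace Pool.Agent.Helper33.HU

open Finset

noncomputable section

/-- **PS** (0.4 h, no hypotheses).
For a set `T` of indices put `H(t) = ∏_{j ∈ T} (t - x_j)`, a polynomial over `D`.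
(1) `∑_k H(x_k) y_k^s = 0` for `s ≥ 1`; (2) `∑_k x_k H(x_k) = 0`.

Proof.  More generally for every `q : Polynomial D`: `∑_k q.eval (x_k) * y_k^s = 0` for `s ≥ 1`,
and `∑_k x_k * q.eval (x_k) = 0`: by linearity (`Polynomial.induction_on'` or
`Polynomial.eval_eq_sum_range`, exchange the sums) it is enough to treat `q = c t^r`, where the sum
is `c * ∑_k x_k^r y_k^s = 0` by `Inv` (resp. `c * ∑_k x_k^(r+1) = 0`, `Inv` with exponents
`(r+1, 0)`).  Apply it to `q = ∏_{j ∈ T} (X - C (x_j))` (`Polynomial.eval_prod`). -/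
def G_PS : Prop :=
  ∀ (n : ℕ) (D : Type) [CommRing D] (x y : Fin n → D), Inv x y → ∀ T : Finset (Fin n),
    (∀ s : ℕ, 1 ≤ s → ∑ k, (∏ t ∈ T, (x k - x t)) * y k ^ s = 0) ∧
      ∑ k, x k * ∏ t ∈ T, (x k - x t) = 0

/-- **EE** (0.8 h, may take `G_PS` as hypothesis).
For a set `T` of indices, `N` its complement, `H(t) = ∏_{t' ∈ T} (t - x_{t'})` and `j ≥ 1`:
`∑_{L ⊆ N, |L| = j} (∑_{i ∈ L} H(x_i)) ∏_{i ∈ L} y_i = 0`.

Proof.  Write `c_i = H(x_i)`.  Double counting (pairs `i ∈ L`, `L = {i} ∪ L'`):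
`∑_L (∑_{i∈L} c_i) y_L = ∑_{i ∈ N} c_i y_i e_{j-1}(N \ {i})` with
`e_m(M) = ∑_{L' ⊆ M, |L'| = m} y_{L'}`.
Since `e_m(M ∪ {i}) = e_m(M) + y_i e_{m-1}(M)` for `i ∉ M`, one has
`e_m(N \ {i}) = ∑_{r=0}^{m} (-y_i)^r e_{m-r}(N)` (induction on `m`).  Hence the sum is
`∑_{r=0}^{j-1} (-1)^r e_{j-1-r}(N) ∑_{i∈N} c_i y_i^(r+1)`, and
`∑_{i∈N} c_i y_i^(r+1) = ∑_{all i} c_i y_i^(r+1) = 0` by `G_PS`, because `c_i = 0` for `i ∈ T`
(the factor `t' = i`).
(Alternative without the expansion: prove by induction on `m` that for every `s ≥ 1`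
`∑_{i∈N} c_i y_i^s e_m(N \ {i}) = 0`: for `m = 0` it is `G_PS`; for the step
`e_{m+1}(N \ {i}) = e_{m+1}(N) - y_i e_m(N \ {i})`.) -/
def G_EE : Prop :=
  ∀ (n : ℕ) (D : Type) [CommRing D] (x y : Fin n → D), Inv x y → ∀ (T : Finset (Fin n)) (j : ℕ),
    1 ≤ j → ∑ L ∈ (Tᶜ).powersetCard j, (∑ i ∈ L, ∏ t ∈ T, (x i - x t)) * ∏ i ∈ L, y i = 0

/-- **PHI** (1 h, no hypotheses).
Let `a v ≠ 0`, `S = SS a v`, `T = TT a v`, and let `L ⊆ Tᶜ` with `|L| = |S|`, `L ≠ S`.  Then
`a i ≥ 1` for all `i ∈ S`, and the exponent `b = a - 1_S + 1_L` has `Ph b < Ph a`.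

Proof.  (1) `pos a v = v - n a_v ≤ (n-1) - n < 0`, so for `i ∈ S` one has `pos a i < 0`, hence
`a i ≥ 1` (if `a i = 0` then `pos a i = i ≥ 0`).
(2) Put `p = pos a v`.  Elements of `S \ L` have `pos a i ≤ p` and `pos b i = pos a i + n`;
elements of `L \ S` are not in `S` and not in `T`, so `pos a k ≥ p + n`, even
`pos a k > p + n`: equality is impossible, `pos a k = p + n` would give `k ≡ v mod n`, so `k = v`,
but `v ∈ S`; and `pos b k = pos a k - n`.  All other positions are unchanged.  `|S \ L| = |L \ S|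
= m` and `m ≥ 1` because `|L| = |S|`, `L ≠ S`.
`∑ pos b ^2 - ∑ pos a ^2 = ∑_{i ∈ S \ L} (2 n pos a i + n^2) + ∑_{k ∈ L \ S} (-2 n pos a k + n^2)
≤ m (2 n p + n^2) + m (-2 n (p + n + 1) + n^2) = - 2 n m < 0` (note `n ≥ 1` since `v : Fin n`).
`(pos a v).natAbs ^ 2` is the square (`Int.natAbs_sq`, cast). -/
def G_PHI : Prop :=
  ∀ (n : ℕ) (a : Fin n → ℕ) (v : Fin n), a v ≠ 0 →
    (∀ i ∈ SS a v, 1 ≤ a i) ∧
      ∀ L ∈ ((TT a v)ᶜ).powersetCard (SS a v).card, L ≠ SS a v →
        Ph (fun i => a i - (if i ∈ SS a v then 1 else 0) + (if i ∈ L then 1 else 0)) < Ph a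

/-- **ML** (1 h, may take `G_PS`, `G_EE`, `G_PHI` as hypotheses).
`FF x a v * y^a` lies in the span over the `x`-algebra of the `y^b` with `Ph b < Ph a`.

Proof.  Case `a v = 0`.  Then `pos a v = v ≥ 0`, every `k` has `pos a k ≤ k ≤ n - 1 < pos a v + n`,
so `TT a v` is the complement of `SS a v`, and `FF x a v = ∑_{i ∈ SS} x_i H(x_i)`
with `H(t) = ∏_{k ∈ TT} (t - x_k)`.  For `i ∉ SS` one has `i ∈ TT`, so `H(x_i) = 0`; hence
`FF x a v = ∑_{all i} x_i H(x_i) = 0` by `G_PS` (2).
Case `a v ≠ 0`.  `S = SS a v`, `T = TT a v`, `S ⊆ Tᶜ`, `j = |S| ≥ 1` (`v ∈ S`).  By `G_EE`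
`∑_{L ⊆ Tᶜ, |L| = j} c_L y_L = 0`, `c_L = ∑_{i∈L} ∏_{t∈T} (x_i - x_t)`, `c_S = FF x a v`.  Multiply by
`y^(a - 1_S)` (`a i ≥ 1` on `S` by `G_PHI`): `y^(a - 1_S) y_L = y^b` with `b = a - 1_S + 1_L`, and
`b = a` for `L = S`.  So `FF x a v * y^a = - ∑_{L ≠ S} c_L y^b`, the `c_L` are in the `x`-algebra and
`Ph b < Ph a` by `G_PHI`. -/
def G_ML : Prop :=
  ∀ (n : ℕ) (D : Type) [CommRing D] [Algebra ℂ D] (x y : Fin n → D), Inv x y →
    ∀ (a : Fin n → ℕ) (v : Fin n), FF x a v * ym y a ∈ low x y (Ph a)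

/-- **DIM** (2.5 h, no hypotheses).
Let `V` be a finite set of labels with distinct integer positions `p`, `n` an integer (the length of the
windows), `r v ∈ {0, 1}` (root in the window of `v`), such that `r` is monotone in the position, and
`r u = 1` implies that everything above `u` is in the window of `u`.  Let `m i ≥ 1` be
multiplicities, and let `B` be a commutative `ℂ`-algebra generated by `z_i` (`i ∈ V`) with
`F_v := ∑_{i ∈ V, p i ≤ p v} m_i z_i^(r v) ∏_{k ∈ V, p v < p k < p v + n} (z_i - z_k) = 0` for all `v ∈ V`.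
Then `B` is finite-dimensional of dimension at most `∏_{v ∈ V} (|window of v| + r v)`.

Proof.  Induction on `|V|`, for all data at once.  `V = ∅`: `B` is generated by the empty set, so it is
the image of `ℂ`, dimension at most 1.  Let `o ∈ V` have the smallest position, `W = V \ {o}`, and
`T_o` its window.  Since `F_o = m_o z_o^(r o) ∏_{k ∈ T_o} (z_o - z_k) = 0` and `m_o` is
invertible in `B` (characteristic 0), the product of the `w_o = |T_o| + r o` factors
`z_o - z_c` (`c ∈ T_o`) and `z_o` (if `r o = 1`) is zero in `B`.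

(a) General fact: let `f_1, …, f_w ∈ B` with `f_1 ⋯ f_w = 0`, and suppose that every `B/(f_i)` is finite
dimensional of dimension at most `d`.  Then `B` is finite-dimensional of dimension at most `w d`.
(Induction on the number of factors: for `f g = 0` the map `B → g B`, `b ↦ g b` kills `f B`, so
`dim g B ≤ dim B/(f)`, and `dim B = dim gB + dim B/(g)`.  To run the induction state it as: for every
list, `dim B/(f_1 ⋯ f_w) ≤ ∑ dim B/(f_i)`: `(g)/(f g)` is a quotient of `B/(f)`, and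
`B/(fg) → B/(g)` has kernel `(g)/(fg)`.  Or define the claim for all commutative algebras `B`.)
So it is enough to show `dim B/(z_o - z_c) ≤ ∏_{v ∈ W} w_v` for `c ∈ T_o`, and
`dim B/(z_o) ≤ ∏_{v ∈ W} w_v` if `r o = 1`.

(b) `B' = B/(z_o - z_c)`, `c ∈ T_o`.  `B'` is generated by the images of `z_i`, `i ∈ W` (the image
of `z_o` equals the image of `z_c`).  Take the new multiplicities `m'_c = m_c + m_o`, `m'_i = m_i` otherwise.
For `v ∈ W` the window of `v` in `W` is the window of `v` in `V` (`o` is below `v`).  The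
term `i = o` of `F_v` is, in `B'`, `m_o z_c^(r v) ∏_{k ∈ T_v} (z_c - z_k)`.  If `p c ≤ p v` it joins the
term `i = c` and gives the new multiplicity.  If `p c > p v`, then `p c < p o + n ≤ p v + n`, so `c ∈ T_v`
and the product contains the factor `z_c - z_c = 0`, while `c` is not in the sum.  So the relations `F'_v = 0`
hold in `B'` for `(W, m')` and the induction hypothesis applies.

(c) `B' = B/(z_o)` when `r o = 1`.  Then `r v = 1` for all `v ∈ V` (monotone), the term `i = o` of `F_v`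
is `m_o z_o ⋯ = 0` in `B'`; `B'` is generated by the `z_i`, `i ∈ W`; apply the induction hypothesis
with `m' = m`.

(The hypothesis `r u = 1 →` everything above is in the window is not needed in this proof; it is not
assumed.)  The window numbers `w_v`, `v ∈ W`, are the same for `W` and `V`, so
`∏_{v∈V} w_v = w_o ∏_{v∈W} w_v`. If `w_o = 0` then `m_o = 0` in `B`, so `B = 0`. -/
def G_DIM : Prop :=
  ∀ (ι : Type) [DecidableEq ι] (V : Finset ι) (p : ι → ℤ) (n : ℤ) (r : ι → ℕ) (m : ι → ℕ)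
    (B : Type) [CommRing B] [Algebra ℂ B] (z : ι → B),
    Set.InjOn p (V : Set ι) → (∀ v ∈ V, r v ≤ 1) →
    (∀ u ∈ V, ∀ v ∈ V, p u ≤ p v → r u ≤ r v) → (∀ v ∈ V, 1 ≤ m v) →
    Algebra.adjoin ℂ (z '' (V : Set ι)) = ⊤ →
    (∀ v ∈ V, ∑ i ∈ V.filter (fun i => p i ≤ p v),
      (m i : B) * (z i ^ r v * ∏ k ∈ V.filter (fun k => p v < p k ∧ p k < p v + n),
        (z i - z k)) = 0) →
    Module.Finite ℂ B ∧
      Module.finrank ℂ B ≤
        ∏ v ∈ V, ((V.filter (fun k => p v < p k ∧ p k < p v + n)).card + r v)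

/-- **LIN** (1.2 h, no hypotheses).
Let `A` be a commutative `ℂ`-algebra, `M` an `A`-module, `m_i` (`i ∈ ι`) elements which span `M`, with
levels `Φ i`, ideals `J_i` with `J_i m_i ⊆ span of the m_b with Φ b < Φ i`, `A / J_i` finite-dimensional
over `ℂ` of dimension at most `c_i`, and `c_i = 0` outside of a finite set `s`.  Then `M` is
finite-dimensional over `ℂ` of dimension at most `∑_{i ∈ s} c_i`.

Proof.  If `c_i = 0` then `A / J_i = 0`, `1 ∈ J_i` and `m_i ∈ span {m_b : Φ b < Φ i}`; by strong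
induction on the level (or by the induction below) `m_i` is in the span of the `m_b`, `b ∈ s`, `Φ b < Φ i`.
Let `M_u` be the `A`-span of `{m_b : b ∈ s, b ∈ u}` for `u ⊆ s`.
Claim: for every finite `u ⊆ s` which is a lower set of `s` for `Φ` (`b ∈ u`, `b' ∈ s`, `Φ b' < Φ b` imply
`b' ∈ u`), `dim M_u ≤ ∑_{i ∈ u} c_i`.  Induction on `|u|`: take `i ∈ u` with
`Φ i` maximal, `u' = u \ {i}` is again a lower set, `M_u = M_{u'} + A m_i`, and the map
`A → M_u / M_{u'}`, `f ↦ f m_i` is surjective and kills `J_i`, since `J_i m_i ⊆ span {m_b : Φ b < Φ i}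
= span {m_b : b ∈ s, Φ b < Φ i} ⊆ M_{u'}`.  So `dim M_u ≤ dim M_{u'} + dim A/J_i`.
Take `u = s`: `M_s = M`. -/
def G_LIN : Prop :=
  ∀ (A M ι : Type) [CommRing A] [Algebra ℂ A] [AddCommGroup M] [Module ℂ M] [Module A M]
    [IsScalarTower ℂ A M] (m : ι → M) (Φ : ι → ℕ) (J : ι → Ideal A) (c : ι → ℕ) (s : Finset ι),
    Submodule.span A (Set.range m) = ⊤ →
    (∀ i, ∀ f ∈ J i, f • m i ∈ Submodule.span A {w | ∃ b, Φ b < Φ i ∧ w = m b}) →
    (∀ i, Module.Finite ℂ (A ⧸ J i) ∧ Module.finrank ℂ (A ⧸ J i) ≤ c i) →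
    (∀ i, i ∉ s → c i = 0) →
    Module.Finite ℂ M ∧ Module.finrank ℂ M ≤ ∑ i ∈ s, c i

/-- **TRE** (1 h, no hypotheses).
For every finite set `s` of exponents, `∑_{a ∈ s} ∏_v ww a v` is at most the number of acyclic parent
functions.

Proof.  `∏_v ww a v` is the number of `f : Fin n → Option (Fin n)` with `f v ∈ O a v`, where
`O a v = (TT a v).map some ∪ (if a v = 0 then {none} else ∅)` has `ww a v` elements
(`Fintype.card_piFinset`).  So the left side is the number of pairs `(a, f)` with `a ∈ s`, `f` valid for `a`.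
(1) A valid `f` is acyclic: `d v = (n - pos a v).toNat`, note `pos a v ≤ n - 1`, and `f v = some u`
gives `pos a v < pos a u`, hence `d u < d v`.
(2) `f` determines `a`: let `f` be acyclic with height `d` and valid for `a` and `a'`.  By strong
induction on `d v` one gets `a v = a' v`: if `f v = none` both are `0`; if `f v = some u` then
`a u = a' u`, so `q := pos a u = pos a' u`, and `pos a v`, `pos a' v` both lie strictly
between `q - n` and `q`; their difference is `n (a' v - a v)`, of absolute value less than `n`, so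
`a v = a' v`.
Hence `(a, f) ↦ f` is injective into the acyclic functions (`Finset.card_sigma`,
`Finset.card_le_card_of_injOn`). -/
def G_TRE : Prop :=
  ∀ (n : ℕ) (s : Finset (Fin n → ℕ)),
    ∑ a ∈ s, ∏ v, ww a v ≤ Nat.card {f : Fin n → Option (Fin n) // Acyc f}

/-- **CAY** (2 h, no hypotheses).  Cayley's formula: the number of acyclic parent functions on
`n` points with one root is `(n+1)^(n-1)`.

Proof.  For finite types `V` (size `n`) and `R` (size `r ≥ 1`, the roots) let `T(V, R)` be the number of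
acyclic functions `f : V → V ⊕ R` (there is `d : V → ℕ` with `d u < d v` whenever `f v = inl u`).  Claim:
`T = t(n, r)` with `t(0, r) = 1`, `t(n, r) = r (n + r)^(n-1)` for `n ≥ 1`.
Recurrence: let `C ⊆ V` be the set of `v` with `f v ∈ R`, `k = |C|`.  `f` is the same as `C`, a function
`C → R` (`r^k` choices) and a function `V \ C → V \ C ⊕ C` which is acyclic with roots `C`.  (If `V` is
nonempty then `C` is nonempty, but this is not needed, if `t(n, 0) = 0` for `n ≥ 1` is included: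
an acyclic function has an element of minimal height, whose value is in `R`.)  So
`t(n, r) = ∑_k binom(n, k) r^k t(n - k, k)`, and by strong induction on `n` (for `n ≥ 1`):
`∑_{k=1}^{n-1} binom(n,k) r^k k n^(n-k-1) + r^n = ∑_{k=1}^{n} binom(n-1, k-1) r^k n^(n-k) = r (n + r)^(n-1)`,
because `k binom(n,k) = n binom(n-1,k-1)`.
Any other proof (Prüfer codes, Joyal) is fine, also an inequality `≤` instead of `=` suffices: the
statement only asks for `≤`. -/
def G_CAY : Prop :=
  ∀ n : ℕ, Nat.card {f : Fin n → Option (Fin n) // Acyc f} ≤ (n + 1) ^ (n - 1)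

/-- **FIN** (1.5 h, helper33; takes `G_ML`, `G_DIM`, `G_LIN`, `G_TRE`, `G_CAY`). -/
def G_FIN : Prop :=
  ∀ (n : ℕ) (D : Type) [CommRing D] [Algebra ℂ D] (x y : Fin n → D), Inv x y →
    Algebra.adjoin ℂ (Set.range x ∪ Set.range y) = ⊤ →
    Module.Finite ℂ D ∧ Module.finrank ℂ D ≤ (n + 1) ^ (n - 1)

end

end Pool.Agent.Helper33.HU
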